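import Mathlib

/-!
# Signed sumsets in cyclic groups (MP_fa6223_co): definitions

`f m s = f_±(m,s)`: the largest `n ≥ 1` such that some set of at most `m` elements is `s`-spanning in `ℤ_n`.
-/

set_option autoImplicit false

namespace Pool.Agent.SG

open Finset

/-- the number `a(m,s)` -/
def a (m s : ℕ) : ℕ := ∑ i ∈ range (s + 1), m.choose i * s.choose i * 2 ^ i

/-- `[0,s]_± A = G` -/
def Spans {G : Type} [AddCommGroup G] (s : ℕ) (A : Finset G) : Prop :=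
  ∀ x : G, ∃ l : G → ℤ, (∑ y ∈ A, |l y|) ≤ (s : ℤ) ∧ ∑ y ∈ A, l y • y = x

/-- `f_±(m,s)` -/
noncomputable def f (m s : ℕ) : ℕ :=
  sSup {n : ℕ | 1 ≤ n ∧ ∃ A : Finset (ZMod n), A.card ≤ m ∧ Spans s A}

/-- the elements `∑ l_i b_i` with `∑ |l_i| ≤ r` -/
def Sp {n k : ℕ} (b : Fin k → ZMod n) (r : ℕ) : Set (ZMod n) :=
  {x | ∃ l : Fin k → ℤ, ∑ i, (l i).natAbs ≤ r ∧ ∑ i, (l i : ZMod n) * b i = x}

/-- the ball of radius `r` in `ℤ^k` -/
noncomputable def Bl (k r : ℕ) : Finset (Fin k → ℤ) :=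
  (Fintype.piFinset fun _ => Finset.Icc (-(r : ℤ)) r).filter fun l => ∑ i, (l i).natAbs ≤ r

end Pool.Agent.SG
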