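import Pool.Agent.Lib.MP_fa6223_co.Mg.G005

/-!
# Q5: the loss is a logarithm for `s ≤ m^(1-δ)`, and a power of a logarithm for `s ≤ K m`
-/

set_option autoImplicit false

namespace Pool.Agent.SG

theorem log_a_ge {m s : ℕ} (hm : 1 ≤ m) (hs : 1 ≤ s) : 1 ≤ Real.log (a m s) := by
  have h3 : 3 ^ 1 ≤ a m s := three_pow_le_a hm hs
  have h3' : (3 : ℝ) ≤ (a m s : ℝ) := by exact_mod_cast h3
  rw [Real.le_log_iff_exp_le (by linarith)]
  have := Real.exp_one_lt_d9
  linarith

theorem size_le {m s : ℕ} (hm : 1 ≤ m) (hs : 1 ≤ s) :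
    ((Nat.log 2 (a m s) + 1 : ℕ) : ℝ) ≤ 3 * Real.log (a m s) := by
  have hx : 1 ≤ Real.log (a m s) := log_a_ge hm hs
  have h2 : ((Nat.log 2 (a m s) : ℕ) : ℝ) * Real.log 2 ≤ Real.log (a m s) := by
    have h3 : 2 ^ (Nat.log 2 (a m s)) ≤ a m s :=
      Nat.pow_log_le_self 2 (by have := one_le_a m s; omega)
    have h4 : ((2 : ℝ)) ^ (Nat.log 2 (a m s)) ≤ a m s := by exact_mod_cast h3
    have h5 := Real.log_le_log (by positivity) h4
    rwa [Real.log_pow] at h5
  have hl := Real.log_two_gt_d9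
  have h4 : ((Nat.log 2 (a m s) : ℕ) : ℝ) ≤ 2 * Real.log (a m s) := by
    have h5 : (0 : ℝ) ≤ ((Nat.log 2 (a m s) : ℕ) : ℝ) := Nat.cast_nonneg _
    nlinarith
  push_cast
  linarith

/-- the loss is a logarithm for `s ≤ m^(1-δ)` -/
theorem q5 {δ : ℝ} (hδ : 0 < δ) : ∃ C : ℝ, 0 < C ∧ ∀ m s : ℕ, 1 ≤ m → 1 ≤ s →
    (s : ℝ) ≤ (m : ℝ) ^ (1 - δ) → (a m s : ℝ) ≤ C * Real.log (a m s) * f m s := by
  -- reduction to `δ ≤ 1/2`
  wlog hδ2 : δ ≤ 1 / 2 generalizing δ
  · obtain ⟨C, hC, h⟩ := this (δ := 1 / 2) (by norm_num) le_rfl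
    refine ⟨C, hC, fun m s hm hs hms => h m s hm hs (hms.trans ?_)⟩
    have hm' : (1 : ℝ) ≤ m := by exact_mod_cast hm
    exact Real.rpow_le_rpow_of_exponent_le hm' (by linarith)
  obtain ⟨J, hJ⟩ : ∃ J : ℕ, J = ⌈2 / δ⌉₊ := ⟨_, rfl⟩
  have hJδ : 2 ≤ δ * J := by
    have h1 : 2 / δ ≤ (J : ℝ) := by rw [hJ]; exact Nat.le_ceil _
    rw [div_le_iff₀ hδ] at h1
    linarith
  -- the eventual inequalities
  have e1 : ∀ᶠ x : ℝ in Filter.atTop, 16 * J * Real.log x ≤ x ^ δ := by
    have h3 := (isLittleO_log_rpow_atTop hδ).def (c := 1 / (16 * (J : ℝ) + 1)) (by positivity)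
    filter_upwards [h3, Filter.eventually_ge_atTop (1 : ℝ)] with x hx hx1
    have hl : 0 ≤ Real.log x := Real.log_nonneg hx1
    rw [Real.norm_of_nonneg hl, Real.norm_of_nonneg (by positivity), div_mul_eq_mul_div, one_mul,
      le_div_iff₀ (by positivity)] at hx
    nlinarith
  have e2 : ∀ᶠ x : ℝ in Filter.atTop, (4 : ℝ) ≤ x ^ δ :=
    (tendsto_rpow_atTop hδ).eventually_ge_atTop 4
  have e3 : ∀ᶠ x : ℝ in Filter.atTop, 2 ^ J * (4 * Real.log x) ≤ x := by
    have h3 := (Real.isLittleO_log_id_atTop).def (c := 1 / (2 ^ J * 4)) (by positivity)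
    filter_upwards [h3, Filter.eventually_ge_atTop (1 : ℝ)] with x hx hx1
    have hl : 0 ≤ Real.log x := Real.log_nonneg hx1
    rw [Real.norm_of_nonneg hl, id, Real.norm_of_nonneg (by linarith), div_mul_eq_mul_div, one_mul,
      le_div_iff₀ (by positivity)] at hx
    linarith
  obtain ⟨X, hX⟩ := Filter.eventually_atTop.1
    ((e1.and (e2.and e3)).and (Filter.eventually_ge_atTop (4 : ℝ)))
  obtain ⟨M, hM⟩ := exists_nat_ge (max X 4)
  refine ⟨(2 * M + 1) ^ M + 12 * 72 ^ J + 864, by positivity, fun m s hm hs hms => ?_⟩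
  have hm1 : (1 : ℝ) ≤ m := by exact_mod_cast hm
  have hlog : 1 ≤ Real.log (a m s) := log_a_ge hm hs
  have hf : (1 : ℝ) ≤ f m s := by exact_mod_cast one_le_f m s
  have hsm' : (s : ℝ) ≤ m := by
    refine hms.trans ?_
    calc (m : ℝ) ^ (1 - δ) ≤ (m : ℝ) ^ (1 : ℝ) :=
          Real.rpow_le_rpow_of_exponent_le hm1 (by linarith)
      _ = m := Real.rpow_one _
  have hsm : s ≤ m := by exact_mod_cast hsm'
  have hbig : ∀ B : ℝ, 0 ≤ B → B ≤ (2 * M + 1) ^ M + 12 * 72 ^ J + 864 →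
      B * Real.log (a m s) * f m s ≤
        ((2 * M + 1) ^ M + 12 * 72 ^ J + 864) * Real.log (a m s) * f m s := by
    intro B _ hB
    exact mul_le_mul_of_nonneg_right (mul_le_mul_of_nonneg_right hB (by linarith)) (by linarith)
  by_cases hmM : m < M
  · -- small `m`
    have h1 : a m s ≤ (2 * s + 1) ^ m := a_le_pow m s
    have h2 : (2 * s + 1) ^ m ≤ (2 * M + 1) ^ M := by
      calc (2 * s + 1) ^ m ≤ (2 * M + 1) ^ m := Nat.pow_le_pow_left (by omega) _
        _ ≤ (2 * M + 1) ^ M := Nat.pow_le_pow_right (by omega) hmM.le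
    have h3 : (a m s : ℝ) ≤ (2 * M + 1) ^ M := by exact_mod_cast h1.trans h2
    refine le_trans ?_ (hbig ((2 * M + 1) ^ M) (by positivity) (by
      have : (0 : ℝ) ≤ 12 * 72 ^ J := by positivity
      linarith))
    have h4 : (1 : ℝ) ≤ Real.log (a m s) * f m s := by nlinarith
    have h5 : (0 : ℝ) ≤ (2 * (M : ℝ) + 1) ^ M := by positivity
    calc (a m s : ℝ) ≤ (2 * M + 1) ^ M := h3
      _ = (2 * (M : ℝ) + 1) ^ M * 1 := (mul_one _).symm
      _ ≤ (2 * (M : ℝ) + 1) ^ M * (Real.log (a m s) * f m s) := mul_le_mul_of_nonneg_left h4 h5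
      _ = _ := by ring
  · have hmM' : (M : ℝ) ≤ m := by exact_mod_cast (not_lt.1 hmM)
    have hXm : X ≤ (m : ℝ) := ((le_max_left _ _).trans hM).trans hmM'
    obtain ⟨⟨f1, f2, f3⟩, f4⟩ := hX m hXm
    have hm4 : 4 ≤ m := by exact_mod_cast f4
    have hlm : 1 ≤ Real.log m := by
      rw [Real.le_log_iff_exp_le (by linarith)]
      have := Real.exp_one_lt_d9
      linarith
    have hs0 : (0 : ℝ) < s := by exact_mod_cast hs
    -- `m^δ s ≤ m`
    have hδs : (m : ℝ) ^ δ * s ≤ m := by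
      calc (m : ℝ) ^ δ * s ≤ (m : ℝ) ^ δ * (m : ℝ) ^ (1 - δ) :=
            mul_le_mul_of_nonneg_left hms (by positivity)
        _ = (m : ℝ) ^ (1 : ℝ) := by
            rw [← Real.rpow_add (by linarith)]
            congr 1
            ring
        _ = m := Real.rpow_one _
    have h4s : 4 * (s : ℝ) ≤ m := by
      nlinarith
    have h4s' : 4 * s ≤ m := by exact_mod_cast h4s
    obtain ⟨t, ht⟩ : ∃ t : ℕ, t = m / (2 * s) := ⟨_, rfl⟩
    have ht1 : 1 ≤ t := by
      rw [ht, Nat.le_div_iff_mul_le (by omega)]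
      omega
    have ht2 : 2 * s * t ≤ m := by
      rw [ht]
      exact Nat.mul_div_le m (2 * s)
    have ht3 : m < 2 * s * (t + 1) := by
      rw [ht]
      exact Nat.lt_mul_div_succ m (by omega)
    have hE := EA hs ht1 ht2 ht3
    have hE1 : (t : ℝ) + 1 ≤ 72 * ((t : ℝ) + 1) := by
      have : (0 : ℝ) ≤ t := Nat.cast_nonneg _
      linarith
    have hdiv : 72 * ((t : ℝ) + 1) / (t + 1) = 72 := by
      field_simp
    have htδ : (m : ℝ) ^ δ / 2 ≤ (t : ℝ) + 1 := by
      have h1 : (m : ℝ) < 2 * s * (t + 1) := by exact_mod_cast ht3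
      have h2 : (m : ℝ) ^ δ * s ≤ 2 * (t + 1) * s := by
        refine hδs.trans (h1.le.trans (le_of_eq (by ring)))
      have h3 : (m : ℝ) ^ δ ≤ 2 * (t + 1) := le_of_mul_le_mul_right h2 hs0
      linarith
    obtain ⟨ℓ, hℓ⟩ : ∃ ℓ : ℕ, ℓ = Nat.log 2 (a m s) + 1 := ⟨_, rfl⟩
    have hℓ1 : 1 ≤ ℓ := by omega
    have haℓ : a m s < 2 ^ ℓ := by
      rw [hℓ]
      exact Nat.lt_pow_succ_log_self (by norm_num) _
    have hℓlog : (ℓ : ℝ) ≤ 3 * Real.log (a m s) := by
      rw [hℓ]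
      exact size_le hm hs
    by_cases hc : ℓ ≤ t + 1
    · have h1 := star (J := 1) (t := t) (ℓ := ℓ) hm4 hs (by
        have : 2 * t ≤ 2 * s * t := by nlinarith
        omega) (by omega) hℓ1 haℓ (by rw [pow_one]; exact hc) hE hE1
      rw [hdiv, pow_one] at h1
      refine h1.trans (le_trans ?_ (hbig 864 (by norm_num) (by
        have : (0 : ℝ) ≤ 12 * 72 ^ J := by positivity
        have : (0 : ℝ) ≤ (2 * (M : ℝ) + 1) ^ M := by positivity
        linarith)))
      refine mul_le_mul_of_nonneg_right ?_ (by linarith)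
      linarith
    · -- the main case
      have hc' : (t : ℝ) + 1 < ℓ := by
        have : t + 1 < ℓ := not_le.1 hc
        exact_mod_cast this
      -- `ℓ ≤ 4 s log m`
      have hℓs : (ℓ : ℝ) ≤ 4 * s * Real.log m := by
        have h1 : 2 ^ (Nat.log 2 (a m s)) ≤ a m s :=
          Nat.pow_log_le_self 2 (by have := one_le_a m s; omega)
        have h2 : a m s ≤ (2 * m + 1) ^ s := a_le_pow' m s
        have h3 : (2 * m + 1) ^ s ≤ (m ^ 2) ^ s := Nat.pow_le_pow_left (by nlinarith) _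
        have h4 : ((2 : ℝ)) ^ (Nat.log 2 (a m s)) ≤ ((m : ℝ) ^ 2) ^ s := by
          exact_mod_cast h1.trans (h2.trans h3)
        have h5 := Real.log_le_log (by positivity) h4
        rw [Real.log_pow, Real.log_pow, Real.log_pow] at h5
        push_cast at h5
        have hl := Real.log_two_gt_d9
        have h6 : ((Nat.log 2 (a m s) : ℕ) : ℝ) * 0.69 ≤ s * (2 * Real.log m) := by
          have h7 : (0 : ℝ) ≤ ((Nat.log 2 (a m s) : ℕ) : ℝ) := Nat.cast_nonneg _
          nlinarith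
        rw [hℓ]
        push_cast
        have h8 : (1 : ℝ) ≤ s := by exact_mod_cast hs
        have h9 : (1 : ℝ) ≤ s * Real.log m := by nlinarith
        nlinarith
      -- `2 J ≤ s`
      have hJs' : 2 * (J : ℝ) ≤ s := by
        have h1 : (m : ℝ) ^ δ / 2 < 4 * s * Real.log m := lt_of_le_of_lt htδ (hc'.trans_le hℓs)
        have h2 : 16 * J * Real.log m < 8 * s * Real.log m := by linarith
        have h3 : 16 * (J : ℝ) < 8 * s := lt_of_mul_lt_mul_right h2 (by linarith)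
        linarith
      have hJs : 2 * J ≤ s := by exact_mod_cast hJs'
      have hT : ℓ ≤ (t + 1) ^ J := by
        have h1 : (ℓ : ℝ) ≤ ((t : ℝ) + 1) ^ J := by
          calc (ℓ : ℝ) ≤ 4 * s * Real.log m := hℓs
            _ ≤ m * (4 * Real.log m) := by nlinarith
            _ ≤ m * (m / 2 ^ J) := by
                refine mul_le_mul_of_nonneg_left ?_ (by linarith)
                rw [le_div_iff₀ (by positivity)]
                linarith
            _ = (m : ℝ) ^ (2 : ℝ) / 2 ^ J := by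
                rw [Real.rpow_two]
                ring
            _ ≤ (m : ℝ) ^ (δ * J) / 2 ^ J := by
                refine div_le_div_of_nonneg_right ?_ (by positivity)
                exact Real.rpow_le_rpow_of_exponent_le hm1 hJδ
            _ = ((m : ℝ) ^ δ / 2) ^ J := by
                rw [div_pow, Real.rpow_mul (by linarith), Real.rpow_natCast]
            _ ≤ ((t : ℝ) + 1) ^ J := pow_le_pow_left₀ (by positivity) htδ J
        exact_mod_cast h1
      have h1 := star (J := J) (t := t) (ℓ := ℓ) hm4 hs (by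
        calc 2 * (J * t) = 2 * J * t := by ring
          _ ≤ s * t := Nat.mul_le_mul_right _ hJs
          _ ≤ 2 * s * t := by nlinarith
          _ ≤ m := ht2) (by omega) hℓ1 haℓ hT hE hE1
      rw [hdiv] at h1
      refine h1.trans (le_trans ?_ (hbig (12 * 72 ^ J) (by positivity) (by
        have : (0 : ℝ) ≤ (2 * (M : ℝ) + 1) ^ M := by positivity
        linarith)))
      refine mul_le_mul_of_nonneg_right ?_ (by linarith)
      have h2 : (0 : ℝ) ≤ 72 ^ J := by positivity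
      calc 4 * (ℓ : ℝ) * 72 ^ J = 4 * 72 ^ J * ℓ := by ring
        _ ≤ 4 * 72 ^ J * (3 * Real.log (a m s)) :=
            mul_le_mul_of_nonneg_left hℓlog (by positivity)
        _ = 12 * 72 ^ J * Real.log (a m s) := by ring

end Pool.Agent.SG
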