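import Pool.Agent.Lib.MP_fa6223_co.Q5

/-!
# Q6: the loss is a power of a logarithm for `s ≤ K m`
-/

set_option autoImplicit false

namespace Pool.Agent.SG

theorem q6 (K : ℕ) : ∃ C : ℝ, 0 < C ∧ ∀ m s : ℕ, 1 ≤ m → 1 ≤ s → s ≤ K * m →
    (a m s : ℝ) ≤ C * Real.log (a m s) ^ C * f m s := by
  rcases Nat.eq_zero_or_pos K with hK0 | hK
  · exact ⟨1, one_pos, fun m s _ hs h => by rw [hK0] at h; omega⟩
  -- growth
  have hgrow : ∀ᶠ n : ℕ in Filter.atTop, 2 * K * (2 * n + 1) ^ 2 + 1 ≤ 2 ^ n := by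
    have h1 : Filter.Tendsto (fun n : ℕ => (n : ℝ) ^ 2 / 2 ^ n) Filter.atTop (nhds 0) :=
      tendsto_pow_const_div_const_pow_of_one_lt 2 (by norm_num)
    have h2 : ∀ᶠ n : ℕ in Filter.atTop, (n : ℝ) ^ 2 / 2 ^ n < 1 / (19 * K) :=
      h1.eventually_lt_const (by positivity)
    filter_upwards [h2, Filter.eventually_ge_atTop 1] with n hn hn1
    have hK' : (1 : ℝ) ≤ K := by exact_mod_cast hK
    have hn1' : (1 : ℝ) ≤ n := by exact_mod_cast hn1
    rw [div_lt_div_iff₀ (by positivity) (by positivity)] at hn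
    have h3 : (2 * K * (2 * n + 1) ^ 2 + 1 : ℝ) ≤ 2 ^ n := by
      have h4 : (2 * (n : ℝ) + 1) ^ 2 ≤ 9 * n ^ 2 := by nlinarith
      have h5 : 2 * (K : ℝ) * (2 * n + 1) ^ 2 ≤ 18 * K * n ^ 2 := by nlinarith
      have h6 : 1 ≤ (K : ℝ) * n ^ 2 := by nlinarith
      nlinarith
    exact_mod_cast h3
  obtain ⟨N₀, hN₀⟩ := Filter.eventually_atTop.1 hgrow
  obtain ⟨M, hM⟩ : ∃ M : ℕ, M = 2 * N₀ + 4 := ⟨_, rfl⟩
  obtain ⟨B, hB⟩ : ∃ B : ℕ, B = 25 * K := ⟨_, rfl⟩
  obtain ⟨W, hW0, hq1⟩ : ∃ W : ℝ, 0 ≤ W ∧ ∀ m s : ℕ, 1 ≤ s → s ≤ m →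
      (a m s : ℝ) ≤ W * ((Nat.log 2 (a m s) + 1 : ℕ) : ℝ) ^ 8 * f m s :=
    ⟨2 ^ 512, by positivity, fun m s hs hsm => q1 hs hsm⟩
  obtain ⟨D, hD⟩ : ∃ D : ℝ, D = W * 3 ^ 8 + (2 * (K * M) + 1) ^ M + 12 * 6 ^ B + B + 9 :=
    ⟨_, rfl⟩
  have hD1 : W * 3 ^ 8 ≤ D := by
    have : (0 : ℝ) ≤ (2 * (K * M) + 1) ^ M := by positivity
    have : (0 : ℝ) ≤ 12 * 6 ^ B := by positivity
    have : (0 : ℝ) ≤ B := Nat.cast_nonneg _
    rw [hD]; linarith
  have hpos : (0 : ℝ) ≤ W * 3 ^ 8 := by positivity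
  have hD2 : (2 * ((K : ℝ) * M) + 1) ^ M ≤ D := by
    have : (0 : ℝ) ≤ 12 * 6 ^ B := by positivity
    have : (0 : ℝ) ≤ B := Nat.cast_nonneg _
    rw [hD]; linarith
  have hD3 : (12 : ℝ) * 6 ^ B ≤ D := by
    have : (0 : ℝ) ≤ (2 * (K * M) + 1) ^ M := by positivity
    have : (0 : ℝ) ≤ B := Nat.cast_nonneg _
    rw [hD]; linarith
  have hD4 : ((B + 1 : ℕ) : ℝ) ≤ D := by
    have : (0 : ℝ) ≤ (2 * (K * M) + 1) ^ M := by positivity
    have : (0 : ℝ) ≤ 12 * 6 ^ B := by positivity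
    push_cast
    rw [hD]; linarith
  have hD5 : ((8 : ℕ) : ℝ) ≤ D := by
    have : (0 : ℝ) ≤ (2 * (K * M) + 1) ^ M := by positivity
    have : (0 : ℝ) ≤ 12 * 6 ^ B := by positivity
    have : (0 : ℝ) ≤ B := Nat.cast_nonneg _
    push_cast
    rw [hD]; linarith
  have hD0 : 0 < D := by
    have : ((8 : ℕ) : ℝ) = 8 := by norm_num
    linarith
  clear hpos
  refine ⟨D, hD0, fun m s hm hs hsK => ?_⟩
  have hlog : 1 ≤ Real.log (a m s) := log_a_ge hm hs
  have hf : (1 : ℝ) ≤ f m s := by exact_mod_cast one_le_f m s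
  have hfin : ∀ (A : ℝ) (e : ℕ), 0 ≤ A → A ≤ D → (e : ℝ) ≤ D →
      A * Real.log (a m s) ^ e * f m s ≤ D * Real.log (a m s) ^ D * f m s := by
    intro A e hA hAD he
    have h1 : Real.log (a m s) ^ e ≤ Real.log (a m s) ^ D := by
      rw [← Real.rpow_natCast]
      exact Real.rpow_le_rpow_of_exponent_le hlog he
    exact mul_le_mul_of_nonneg_right (mul_le_mul hAD h1 (by positivity) hD0.le) (by linarith)
  rcases le_total s m with hsm | hms
  · -- `s ≤ m`
    have h1 := hq1 m s hs hsm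
    have h2 : ((Nat.log 2 (a m s) + 1 : ℕ) : ℝ) ^ 8 ≤ (3 * Real.log (a m s)) ^ 8 :=
      pow_le_pow_left₀ (Nat.cast_nonneg _) (size_le hm hs) 8
    refine h1.trans (le_trans ?_ (hfin (W * 3 ^ 8) 8 (by positivity) hD1 hD5))
    refine mul_le_mul_of_nonneg_right ?_ (by linarith)
    calc W * ((Nat.log 2 (a m s) + 1 : ℕ) : ℝ) ^ 8
        ≤ W * (3 * Real.log (a m s)) ^ 8 := mul_le_mul_of_nonneg_left h2 hW0
      _ = W * 3 ^ 8 * Real.log (a m s) ^ 8 := by rw [mul_pow]; ring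
  · by_cases hmM : m < M
    · -- small `m`
      have h1 : a m s ≤ (2 * s + 1) ^ m := a_le_pow m s
      have h2 : (2 * s + 1) ^ m ≤ (2 * (K * M) + 1) ^ M := by
        have h3 : s ≤ K * M := hsK.trans (Nat.mul_le_mul_left _ hmM.le)
        calc (2 * s + 1) ^ m ≤ (2 * (K * M) + 1) ^ m := Nat.pow_le_pow_left (by omega) _
          _ ≤ (2 * (K * M) + 1) ^ M := Nat.pow_le_pow_right (by omega) hmM.le
      have h3 : (a m s : ℝ) ≤ (2 * ((K : ℝ) * M) + 1) ^ M := by exact_mod_cast h1.trans h2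
      refine le_trans ?_ (hfin ((2 * ((K : ℝ) * M) + 1) ^ M) 0 (by positivity) hD2
        (by push_cast; exact hD0.le))
      rw [pow_zero, mul_one]
      exact h3.trans (le_mul_of_one_le_right (by positivity) hf)
    · have hmM' : M ≤ m := not_lt.1 hmM
      obtain ⟨ℓ, hℓ⟩ : ∃ ℓ : ℕ, ℓ = Nat.log 2 (a m s) + 1 := ⟨_, rfl⟩
      have hℓ1 : 1 ≤ ℓ := by omega
      have haℓ : a m s < 2 ^ ℓ := by
        rw [hℓ]
        exact Nat.lt_pow_succ_log_self (by norm_num) _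
      have hℓlog : (ℓ : ℝ) ≤ 3 * Real.log (a m s) := by
        rw [hℓ]
        exact size_le hm hs
      have hℓ2 : ℓ ≤ 2 * K * m ^ 2 + 1 := by
        have h1 : a m s ≤ (2 * s + 1) ^ m := a_le_pow m s
        have h2 : 2 * s + 1 ≤ 2 ^ (2 * K * m) := by
          have h3 : 2 * K * m < 2 ^ (2 * K * m) := Nat.lt_pow_self (by norm_num)
          have h4 : 2 * s ≤ 2 * K * m := by nlinarith
          omega
        have h3 : a m s ≤ 2 ^ (2 * K * m * m) := by
          rw [pow_mul]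
          exact h1.trans (Nat.pow_le_pow_left h2 m)
        have h4 : Nat.log 2 (a m s) ≤ 2 * K * m * m := by
          have h5 := Nat.log_mono_right (b := 2) h3
          rwa [Nat.log_pow (by norm_num)] at h5
        rw [hℓ]
        have h5 : 2 * K * m * m = 2 * K * m ^ 2 := by ring
        omega
      obtain ⟨J, hJ⟩ : ∃ J : ℕ, J = Nat.clog 2 ℓ := ⟨_, rfl⟩
      have hJ1 : ℓ ≤ 2 ^ J := by
        rw [hJ]
        exact Nat.le_pow_clog (by norm_num) _
      have hJ2 : 2 ^ J ≤ 2 * ℓ := by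
        rcases Nat.lt_or_ge 1 ℓ with h | h
        · have h1 : 2 ^ (Nat.clog 2 ℓ - 1) < ℓ := by
            have := Nat.pow_pred_clog_lt_self (b := 2) (by norm_num) h
            exact this
          have h2 : 1 ≤ Nat.clog 2 ℓ := Nat.clog_pos (by norm_num) h
          have h3 : 2 ^ (Nat.clog 2 ℓ) = 2 * 2 ^ (Nat.clog 2 ℓ - 1) := by
            rw [← pow_succ']
            congr 1
            omega
          rw [hJ, h3]
          omega
        · have h1 : ℓ = 1 := by omega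
          rw [hJ, h1, Nat.clog_one_right]
          norm_num
      have hJm : 2 * J ≤ m := by
        have h1 : ℓ ≤ 2 ^ (m / 2) := by
          have h2 := hN₀ (m / 2) (by omega)
          have h3 : m ≤ 2 * (m / 2) + 1 := by omega
          have h4 : m ^ 2 ≤ (2 * (m / 2) + 1) ^ 2 := Nat.pow_le_pow_left h3 2
          have h5 : 2 * K * m ^ 2 ≤ 2 * K * (2 * (m / 2) + 1) ^ 2 := Nat.mul_le_mul_left _ h4
          omega
        have h2 : J ≤ m / 2 := by
          rw [hJ]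
          exact Nat.clog_le_of_le_pow h1
        omega
      have hE : (1 + 4 * (m : ℝ) / s) * (1 + 4 * (s : ℝ) / m) ^ 1 ≤ B := by
        refine (EC hm hms).trans ?_
        have hm0 : (0 : ℝ) < m := by exact_mod_cast hm
        rw [div_le_iff₀ hm0, hB]
        have h1 : (s : ℝ) ≤ K * m := by exact_mod_cast hsK
        push_cast
        linarith
      have hB25 : 25 ≤ B := by omega
      have h1 := star (m := m) (s := s) (J := J) (t := 1) (ℓ := ℓ) (E := (B : ℝ)) (by omega) hs (by omega) (by omega)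
        hℓ1 haℓ hJ1 hE (by
          have : (25 : ℝ) ≤ B := by exact_mod_cast hB25
          push_cast
          linarith)
      have h2 : ((B : ℝ) / ((1 : ℕ) + 1)) ^ J ≤ (2 * ℓ) ^ B := by
        have h3 : (B : ℝ) / ((1 : ℕ) + 1) ≤ 2 ^ B := by
          have h4 : B < 2 ^ B := Nat.lt_pow_self (by norm_num)
          have h5 : (B : ℝ) ≤ 2 ^ B := by exact_mod_cast h4.le
          have h6 : (0 : ℝ) ≤ B := Nat.cast_nonneg _
          push_cast
          linarith
        calc ((B : ℝ) / ((1 : ℕ) + 1)) ^ J ≤ (2 ^ B) ^ J := pow_le_pow_left₀ (by positivity) h3 J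
          _ = (2 ^ J) ^ B := by rw [← pow_mul, ← pow_mul, mul_comm]
          _ ≤ (2 * ℓ) ^ B := by
              refine pow_le_pow_left₀ (by positivity) ?_ B
              exact_mod_cast hJ2
      refine h1.trans (le_trans ?_ (hfin (12 * 6 ^ B) (B + 1) (by positivity) hD3 hD4))
      refine mul_le_mul_of_nonneg_right ?_ (by linarith)
      have h3 : (2 * (ℓ : ℝ)) ^ B ≤ (6 * Real.log (a m s)) ^ B :=
        pow_le_pow_left₀ (by positivity) (by linarith) B
      have h4 : (0 : ℝ) ≤ ℓ := Nat.cast_nonneg _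
      calc 4 * (ℓ : ℝ) * ((B : ℝ) / ((1 : ℕ) + 1)) ^ J
          ≤ 4 * (3 * Real.log (a m s)) * (6 * Real.log (a m s)) ^ B := by
            refine mul_le_mul (by linarith) (h2.trans h3) (by positivity) (by positivity)
        _ = 12 * 6 ^ B * Real.log (a m s) ^ (B + 1) := by
            rw [mul_pow, pow_succ]
            ring

end Pool.Agent.SG
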