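import Pool.Agent.Lib.MP_fa6223_co.Mg.G004
import Pool.Agent.Lib.MP_fa6223_co.Q5
import Pool.Agent.Lib.MP_fa6223_co.Mg.G005

/-!
# Z2: the theorem for all `m, s`

PROOF. `main_log`. `log_a_ge : 1 ≤ log (a m s)`, `size_le : Nat.log 2 (a m s) + 1 ≤ 3 log (a m s)` (Q5.lean). `s ≤ m`: `main1`. `m ≤ s`:
`m < 64`: `q2c` (`768^64`, and `log a ≥ 1`). `m ≥ 64`, `s ≤ m^4`: `q3a`, `le_f_of_Sp`: `a ≤ 256 ℓ^7 f ≤ 256 * 3^7 (log a)^7 f`. `m ≥ 64`,
`s ≥ m^4`: `q3b`; `ℓ' = Nat.log 2 (a (m-1) (m^2)) + 1 ≤ Nat.log 2 (a m s) + 1 ≤ 3 log (a m s)` (`a_mono`, `Nat.log_mono_right`; `m^2 ≤ m^4 ≤ s`),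
`2m + 1 ≤ 3m ≤ 3 log a` since `a m s ≥ 3^m` (`three_pow_le_a`, `log 3 ≥ 1`). So `a ≤ exp 7 * 3 * 256 * 3^7 (log a)^8 f`. Take the maximum (or the
sum) of the constants (keep big constants opaque: `obtain ⟨D, hD⟩ : ∃ D : ℝ, D = 768 ^ 64 := ⟨_, rfl⟩`).
`main_m`. `m < 64`: `q2c`, `m^9 ≥ 1`. `m ≥ 64`, `s ≤ m^4`: `q3a` and `size7`: `a ≤ 256 C m^8 f ≤ 256 C m^9 f`. `m ≥ 64`, `s ≥ m^4`: `q3b`, and
`size7` for `(m, m^2)`: `ℓ' ≤ Nat.log 2 (a m (m^2)) + 1` so `ℓ'^7 ≤ C m^8`, `2m+1 ≤ 3m`: `a ≤ exp 7 * 3m * 256 * C m^8 f`.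
-/

set_option autoImplicit false

namespace Pool.Agent.SG

theorem main_log : ∃ C : ℝ, 0 < C ∧ ∀ m s : ℕ, 1 ≤ m → 1 ≤ s →
    (a m s : ℝ) ≤ C * Real.log (a m s) ^ 8 * f m s := by
  obtain ⟨C1, hC1, h1⟩ := main1
  obtain ⟨D, hD⟩ : ∃ D : ℝ, D = (768 : ℝ) ^ 64 := ⟨_, rfl⟩
  have hD0 : 0 < D := by rw [hD]; positivity
  obtain ⟨F, hF⟩ : ∃ F : ℝ, F = Real.exp 7 * 3 * (256 * 3 ^ 7) := ⟨_, rfl⟩
  have hF0 : 0 < F := by rw [hF]; positivity
  have hF1 : (256 * 3 ^ 7 : ℝ) ≤ F := by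
    have e1 : (1 : ℝ) ≤ Real.exp 7 := Real.one_le_exp (by norm_num)
    rw [hF]
    nlinarith
  refine ⟨C1 + D + F, by positivity, fun m s hm hs => ?_⟩
  have hx : 1 ≤ Real.log (a m s) := log_a_ge hm hs
  have hx0 : 0 ≤ Real.log (a m s) := by linarith
  have hsz := size_le hm hs
  have hf : (0 : ℝ) ≤ f m s := Nat.cast_nonneg _
  have h8 : 0 ≤ Real.log (a m s) ^ 8 := by positivity
  have h81 : 1 ≤ Real.log (a m s) ^ 8 := one_le_pow₀ hx
  have h78 : Real.log (a m s) ^ 7 ≤ Real.log (a m s) ^ 8 := pow_le_pow_right₀ hx (by norm_num)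
  have fin : ∀ X : ℝ, X ≤ (C1 + D + F) * Real.log (a m s) ^ 8 → (a m s : ℝ) ≤ X * f m s →
      (a m s : ℝ) ≤ (C1 + D + F) * Real.log (a m s) ^ 8 * f m s := by
    intro X hX h
    exact h.trans (mul_le_mul_of_nonneg_right hX hf)
  rcases le_total s m with hsm | hms
  · refine fin _ ?_ (h1 m s hs hsm)
    exact mul_le_mul_of_nonneg_right (by linarith) h8
  · by_cases hm64 : m < 64
    · have h2 := q2c hm hm64 hms
      rw [← hD] at h2
      refine fin _ ?_ h2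
      calc D ≤ (C1 + D + F) * 1 := by linarith
        _ ≤ _ := mul_le_mul_of_nonneg_left h81 (by positivity)
    · have hm' : 64 ≤ m := by omega
      by_cases h4 : s ≤ m ^ 4
      · obtain ⟨N, hN, ⟨b, hb⟩, h5⟩ := q3a (by omega) hms h4
        have h6 : (N : ℝ) ≤ f m s := by exact_mod_cast le_f_of_Sp hN b hb
        have h7 : ((Nat.log 2 (a m s) + 1 : ℕ) : ℝ) ^ 7 ≤ (3 * Real.log (a m s)) ^ 7 :=
          pow_le_pow_left₀ (Nat.cast_nonneg _) hsz 7
        refine fin (256 * (3 * Real.log (a m s)) ^ 7) ?_ ?_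
        · calc 256 * (3 * Real.log (a m s)) ^ 7 = (256 * 3 ^ 7) * Real.log (a m s) ^ 7 := by
                rw [mul_pow]; ring
            _ ≤ (C1 + D + F) * Real.log (a m s) ^ 8 :=
                mul_le_mul (by linarith) h78 (by positivity) (by positivity)
        · refine h5.trans ?_
          exact mul_le_mul (mul_le_mul_of_nonneg_left h7 (by norm_num)) h6 (Nat.cast_nonneg _)
            (by positivity)
      · have h4' : m ^ 4 ≤ s := by omega
        have h5 := q3b hm' h4'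
        have h24 : m ^ 2 ≤ s := le_trans (Nat.pow_le_pow_right (by omega) (by norm_num)) h4'
        have h6 : ((Nat.log 2 (a (m - 1) (m ^ 2)) + 1 : ℕ) : ℝ) ≤ 3 * Real.log (a m s) := by
          refine le_trans ?_ hsz
          have e1 : a (m - 1) (m ^ 2) ≤ a m s := a_mono (Nat.sub_le _ _) h24
          have e2 := Nat.log_mono_right (b := 2) e1
          exact_mod_cast Nat.succ_le_succ e2
        have h7 : ((Nat.log 2 (a (m - 1) (m ^ 2)) + 1 : ℕ) : ℝ) ^ 7 ≤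
            (3 * Real.log (a m s)) ^ 7 := pow_le_pow_left₀ (Nat.cast_nonneg _) h6 7
        have hmR : (1 : ℝ) ≤ m := by exact_mod_cast hm
        have h9 : 2 * (m : ℝ) + 1 ≤ 3 * Real.log (a m s) := by
          have e1 : 3 ^ m ≤ a m s := three_pow_le_a le_rfl hms
          have e2 : (3 : ℝ) ^ m ≤ a m s := by exact_mod_cast e1
          have e3 := Real.log_le_log (by positivity) e2
          rw [Real.log_pow] at e3
          have e4 : 1 ≤ Real.log 3 := by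
            rw [Real.le_log_iff_exp_le (by norm_num)]
            have := Real.exp_one_lt_d9
            linarith
          nlinarith
        refine fin (Real.exp 7 * (3 * Real.log (a m s)) * (256 * (3 * Real.log (a m s)) ^ 7)) ?_ ?_
        · calc Real.exp 7 * (3 * Real.log (a m s)) * (256 * (3 * Real.log (a m s)) ^ 7)
              = F * Real.log (a m s) ^ 8 := by rw [hF, mul_pow]; ring
            _ ≤ (C1 + D + F) * Real.log (a m s) ^ 8 :=
                mul_le_mul_of_nonneg_right (by linarith) h8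
        · refine h5.trans (mul_le_mul_of_nonneg_right ?_ hf)
          exact mul_le_mul (mul_le_mul_of_nonneg_left h9 (Real.exp_pos _).le)
            (mul_le_mul_of_nonneg_left h7 (by norm_num)) (by positivity) (by positivity)

theorem main_m : ∃ C : ℝ, 0 < C ∧ ∀ m s : ℕ, 1 ≤ m → m ≤ s →
    (a m s : ℝ) ≤ C * (m : ℝ) ^ 9 * f m s := by
  obtain ⟨C1, hC1, h1⟩ := size7
  obtain ⟨D, hD⟩ : ∃ D : ℝ, D = (768 : ℝ) ^ 64 := ⟨_, rfl⟩
  have hD0 : 0 < D := by rw [hD]; positivity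
  obtain ⟨F, hF⟩ : ∃ F : ℝ, F = Real.exp 7 * 3 * (256 * C1) := ⟨_, rfl⟩
  have hF0 : 0 < F := by rw [hF]; positivity
  have hF1 : 256 * C1 ≤ F := by
    have e1 : (1 : ℝ) ≤ Real.exp 7 := Real.one_le_exp (by norm_num)
    have e2 : 0 < 256 * C1 := by positivity
    rw [hF]
    nlinarith
  refine ⟨D + F, by positivity, fun m s hm hms => ?_⟩
  have hf : (0 : ℝ) ≤ f m s := Nat.cast_nonneg _
  have hmR : (1 : ℝ) ≤ m := by exact_mod_cast hm
  have h91 : (1 : ℝ) ≤ (m : ℝ) ^ 9 := one_le_pow₀ hmR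
  have h89 : (m : ℝ) ^ 8 ≤ (m : ℝ) ^ 9 := pow_le_pow_right₀ hmR (by norm_num)
  have fin : ∀ X : ℝ, X ≤ (D + F) * (m : ℝ) ^ 9 → (a m s : ℝ) ≤ X * f m s →
      (a m s : ℝ) ≤ (D + F) * (m : ℝ) ^ 9 * f m s := by
    intro X hX h
    exact h.trans (mul_le_mul_of_nonneg_right hX hf)
  by_cases hm64 : m < 64
  · have h2 := q2c hm hm64 hms
    rw [← hD] at h2
    refine fin _ ?_ h2
    calc D ≤ (D + F) * 1 := by linarith
      _ ≤ _ := mul_le_mul_of_nonneg_left h91 (by positivity)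
  · have hm' : 64 ≤ m := by omega
    by_cases h4 : s ≤ m ^ 4
    · obtain ⟨N, hN, ⟨b, hb⟩, h5⟩ := q3a (by omega) hms h4
      have h6 : (N : ℝ) ≤ f m s := by exact_mod_cast le_f_of_Sp hN b hb
      have h7 := h1 m s hm h4
      refine fin (256 * (C1 * (m : ℝ) ^ 8)) ?_ ?_
      · calc 256 * (C1 * (m : ℝ) ^ 8) = (256 * C1) * (m : ℝ) ^ 8 := by ring
          _ ≤ (D + F) * (m : ℝ) ^ 9 := mul_le_mul (by linarith) h89 (by positivity) (by positivity)
      · refine h5.trans ?_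
        exact mul_le_mul (mul_le_mul_of_nonneg_left h7 (by norm_num)) h6 (Nat.cast_nonneg _)
          (by positivity)
    · have h4' : m ^ 4 ≤ s := by omega
      have h5 := q3b hm' h4'
      have h7 : ((Nat.log 2 (a (m - 1) (m ^ 2)) + 1 : ℕ) : ℝ) ^ 7 ≤ C1 * (m : ℝ) ^ 8 := by
        refine le_trans ?_ (h1 m (m ^ 2) hm (Nat.pow_le_pow_right (by omega) (by norm_num)))
        refine pow_le_pow_left₀ (Nat.cast_nonneg _) ?_ 7
        have e1 : a (m - 1) (m ^ 2) ≤ a m (m ^ 2) := a_mono (Nat.sub_le _ _) le_rfl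
        have e2 := Nat.log_mono_right (b := 2) e1
        exact_mod_cast Nat.succ_le_succ e2
      refine fin (Real.exp 7 * (3 * m) * (256 * (C1 * (m : ℝ) ^ 8))) ?_ ?_
      · calc Real.exp 7 * (3 * m) * (256 * (C1 * (m : ℝ) ^ 8)) = F * (m : ℝ) ^ 9 := by
              rw [hF]; ring
          _ ≤ (D + F) * (m : ℝ) ^ 9 := mul_le_mul_of_nonneg_right (by linarith) (by positivity)
      · refine h5.trans (mul_le_mul_of_nonneg_right ?_ hf)
        exact mul_le_mul (mul_le_mul_of_nonneg_left (by linarith) (Real.exp_pos _).le)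
          (mul_le_mul_of_nonneg_left h7 (by norm_num)) (by positivity) (by positivity)

end Pool.Agent.SG
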